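import Pool.Agent.EWG.StmtsC

set_option autoImplicit false

namespace Pool.Agent.EWG.H98

open Finset

/-- one dyadic block -/
theorem mrgBlock (N : ℕ) (y : ℝ) (hy : 1 ≤ y) :
    ∑ l ∈ (pr (Icc 1 N)).filter (fun l : ℕ => y < l ∧ (l : ℝ) ≤ 2 * y),
      Real.log l / ((l : ℝ) - 1) ≤ 4 * Real.log 4 := by
  have h1 : ∑ l ∈ (pr (Icc 1 N)).filter (fun l : ℕ => y < l ∧ (l : ℝ) ≤ 2 * y),
      Real.log l / ((l : ℝ) - 1) ≤
      ∑ l ∈ (pr (Icc 1 N)).filter (fun l : ℕ => y < l ∧ (l : ℝ) ≤ 2 * y),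
        (2 / y) * Real.log l := by
    apply Finset.sum_le_sum
    intro l hl
    rw [Finset.mem_filter, mem_pr] at hl
    obtain ⟨⟨_, hp⟩, h2, _⟩ := hl
    have hl2 : (2 : ℝ) ≤ l := by exact_mod_cast hp.two_le
    have hlog : 0 ≤ Real.log l := Real.log_nonneg (by linarith)
    rw [div_eq_mul_inv, mul_comm]
    apply mul_le_mul_of_nonneg_right _ hlog
    rw [inv_eq_one_div, div_le_div_iff₀ (by linarith) (by linarith)]
    linarith
  have h2 : ∑ l ∈ (pr (Icc 1 N)).filter (fun l : ℕ => y < l ∧ (l : ℝ) ≤ 2 * y), Real.log l ≤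
      Chebyshev.theta (2 * y) := by
    unfold Chebyshev.theta
    apply Finset.sum_le_sum_of_subset_of_nonneg
    · intro l hl
      rw [Finset.mem_filter, mem_pr] at hl
      obtain ⟨⟨_, hp⟩, _, h3⟩ := hl
      rw [Finset.mem_filter, Finset.mem_Ioc]
      exact ⟨⟨hp.pos, Nat.le_floor h3⟩, hp⟩
    · intro l hl _
      rw [Finset.mem_filter, Finset.mem_Ioc] at hl
      exact Real.log_nonneg (by exact_mod_cast hl.1.1)
  have h3 := Chebyshev.theta_le_log4_mul_x (x := 2 * y) (by linarith)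
  have hypos : 0 < y := by linarith
  calc _ ≤ _ := h1
    _ = (2 / y) * ∑ l ∈ (pr (Icc 1 N)).filter (fun l : ℕ => y < l ∧ (l : ℝ) ≤ 2 * y),
        Real.log l := by rw [Finset.mul_sum]
    _ ≤ (2 / y) * (Real.log 4 * (2 * y)) := by
        apply mul_le_mul_of_nonneg_left (h2.trans h3)
        positivity
    _ = 4 * Real.log 4 := by
        field_simp
        ring

theorem mrgK (N : ℕ) : ∀ (K : ℕ) (y y' : ℝ), 1 ≤ y → y' ≤ 2 ^ K * y →
    ∑ l ∈ (pr (Icc 1 N)).filter (fun l : ℕ => y < l ∧ (l : ℝ) ≤ y'),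
      Real.log l / ((l : ℝ) - 1) ≤ 4 * Real.log 4 * K := by
  classical
  intro K
  induction K with
  | zero =>
    intro y y' hy h
    have : (pr (Icc 1 N)).filter (fun l : ℕ => y < l ∧ (l : ℝ) ≤ y') = ∅ := by
      apply Finset.filter_eq_empty_iff.2
      rintro l _ ⟨h1, h2⟩
      rw [pow_zero, one_mul] at h
      linarith
    rw [this]
    simp
  | succ K ih =>
    intro y y' hy h
    have h1 := mrgBlock N y hy
    have h2 := ih (2 * y) y' (by linarith) (by
      calc y' ≤ 2 ^ (K + 1) * y := h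
        _ = 2 ^ K * (2 * y) := by ring)
    have h3 : (pr (Icc 1 N)).filter (fun l : ℕ => y < l ∧ (l : ℝ) ≤ y') ⊆
        (pr (Icc 1 N)).filter (fun l : ℕ => y < l ∧ (l : ℝ) ≤ 2 * y) ∪
          (pr (Icc 1 N)).filter (fun l : ℕ => 2 * y < l ∧ (l : ℝ) ≤ y') := by
      intro l hl
      rw [Finset.mem_filter] at hl
      rw [Finset.mem_union, Finset.mem_filter, Finset.mem_filter]
      rcases le_or_gt (l : ℝ) (2 * y) with h4 | h4
      · exact Or.inl ⟨hl.1, hl.2.1, h4⟩
      · exact Or.inr ⟨hl.1, h4, hl.2.2⟩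
    have hnn : ∀ l ∈ pr (Icc 1 N), 0 ≤ Real.log l / ((l : ℝ) - 1) := by
      intro l hl
      rw [mem_pr] at hl
      have hl2 : (2 : ℝ) ≤ l := by exact_mod_cast hl.2.two_le
      exact div_nonneg (Real.log_nonneg (by linarith)) (by linarith)
    have h5 : ∑ l ∈ (pr (Icc 1 N)).filter (fun l : ℕ => y < l ∧ (l : ℝ) ≤ y'),
        Real.log l / ((l : ℝ) - 1) ≤
        ∑ l ∈ (pr (Icc 1 N)).filter (fun l : ℕ => y < l ∧ (l : ℝ) ≤ 2 * y) ∪
          (pr (Icc 1 N)).filter (fun l : ℕ => 2 * y < l ∧ (l : ℝ) ≤ y'),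
          Real.log l / ((l : ℝ) - 1) := by
      apply Finset.sum_le_sum_of_subset_of_nonneg h3
      intro l hl _
      rw [Finset.mem_union, Finset.mem_filter, Finset.mem_filter] at hl
      rcases hl with hl | hl
      · exact hnn l hl.1
      · exact hnn l hl.1
    have h6 : Disjoint ((pr (Icc 1 N)).filter (fun l : ℕ => y < l ∧ (l : ℝ) ≤ 2 * y))
        ((pr (Icc 1 N)).filter (fun l : ℕ => 2 * y < l ∧ (l : ℝ) ≤ y')) := by
      rw [Finset.disjoint_left]
      intro l h7 h8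
      rw [Finset.mem_filter] at h7 h8
      linarith [h7.2.2, h8.2.1]
    rw [Finset.sum_union h6] at h5
    push_cast
    linarith

theorem mrg : MrgStmt := by
  refine ⟨8, by norm_num, ?_⟩
  intro y y' N hy hyy
  have hypos : 0 < y := by linarith
  have hq : 1 ≤ y' / y := by
    rw [le_div_iff₀ hypos]
    linarith
  have hl2 : 0 < Real.log 2 := Real.log_pos (by norm_num)
  have hlog : 0 ≤ Real.log (y' / y) := Real.log_nonneg hq
  have hK : y' ≤ 2 ^ (⌈Real.log (y' / y) / Real.log 2⌉₊) * y := by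
    rw [← div_le_iff₀ hypos]
    have h1 := Nat.le_ceil (Real.log (y' / y) / Real.log 2)
    rw [div_le_iff₀ hl2] at h1
    have h2 : Real.log (y' / y) ≤ Real.log ((2 : ℝ) ^ (⌈Real.log (y' / y) / Real.log 2⌉₊)) := by
      rw [Real.log_pow]
      exact h1
    exact (Real.log_le_log_iff (by linarith) (by positivity)).1 h2
  have h1 := mrgK N _ y y' hy hK
  have h2 := Nat.ceil_lt_add_one (a := Real.log (y' / y) / Real.log 2) (by positivity)
  have h4 : Real.log 4 = 2 * Real.log 2 := by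
    rw [show (4 : ℝ) = 2 ^ 2 by norm_num, Real.log_pow]
    norm_num
  have h5 : Real.log 2 ≤ 1 := by
    have := Real.log_two_lt_d9
    linarith
  have h6 : (⌈Real.log (y' / y) / Real.log 2⌉₊ : ℝ) * Real.log 2 ≤
      Real.log (y' / y) + Real.log 2 := by
    have h7 := mul_le_mul_of_nonneg_right h2.le hl2.le
    rw [add_mul, div_mul_cancel₀ _ hl2.ne', one_mul] at h7
    exact h7
  calc _ ≤ _ := h1
    _ = 8 * ((⌈Real.log (y' / y) / Real.log 2⌉₊ : ℝ) * Real.log 2) := by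
        rw [h4]
        ring
    _ ≤ 8 * (Real.log (y' / y) + 1) := by linarith

end Pool.Agent.EWG.H98
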