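import Pool.Agent.EWG.StmtsA

set_option autoImplicit false

namespace Pool.Agent.EWG.H98

theorem smn : SmnStmt := by
  have h : NoCoprimeInterior 2184 16 := by
    intro c h1 h2
    have h3 : c < 2200 := h2
    interval_cases c <;> first
      | (left; norm_num; done) | (right; norm_num; done)
  exact ⟨⟨by norm_num, 2184, h⟩, h⟩

end Pool.Agent.EWG.H98
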